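import Mathlib
import Pool.Agent.Helper45.K4.Defs
import Pool.Agent.Helper45.K4.Closure

/-!
# The largest complete class of matroids avoiding `M(K_4)`

The class `𝒦` of matroids with no minor isomorphic to `M(K_4)` is complete, contains no copy of
`M(K_4)`, and contains every complete class that contains no copy of `M(K_4)`.
-/

set_option autoImplicit false

open Set Matroid

namespace Pool.Agent.Results.MP_c5be19_co.CompleteClassK4

open Pool.Agent.Helper45.K4

/-- `𝒦` is the largest complete class containing no copy of `M(K_4)`. -/
theorem result :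
    IsComplete NoMK4Minor ∧
    (∀ (α : Type) (N : Matroid α), IsMK4 N → ¬ NoMK4Minor α N) ∧
    ∀ C : MatroidClass, IsComplete C → (∀ (α : Type) (N : Matroid α), IsMK4 N → ¬ C α N) →
      ∀ (α : Type) (M : Matroid α), C α M → NoMK4Minor α M :=
  ⟨isComplete_noMK4Minor, fun _ N hN h => h.2 N IsMinor.refl hN, le_noMK4Minor⟩

end Pool.Agent.Results.MP_c5be19_co.CompleteClassK4
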